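import Pool.Agent.Helper78.MG.Goals

/-!
# MP_ff3ed7_lc, project MG, packet MG-MAC: the converse
-/

namespace Pool.Agent.Helper51.MG

open Pool.Agent.Helper81.CC Pool.Agent.Helper51.ZP Pool.Agent.Helper78.DT Pool.Agent.Helper31.TMSim
open Pool.Agent.Helper83.CL Pool.Agent.Helper78.MG Computability

theorem PT_of_comp {α β : Type} [ToData α] [ToData β] {f : α → β}
    (h : PolyTimeComputable (encOf α) (encOf β) f) : PolyTime f :=
  ⟨scomp_of_polyTimeComputable h⟩

theorem count_mono {m : ℕ} {E F : (Fin m → Bool) → Prop} (h : ∀ r, E r → F r) :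
    count m E ≤ count m F := by
  unfold count
  exact Nat.card_le_card_of_injective (Subtype.map id h) (Subtype.map_injective h Function.injective_id)

theorem mac : MacStmt := by
  rintro c L ⟨V, p, m, hV, h1, h2⟩
  refine ⟨fun v => V (v.1, v.2.1, v.2.2.2), fun _ => 1, p, m, 1, Polynomial.C 3, ?_, ?_, ?_, ?_⟩
  · apply PolyTime.computable
    have hV' : PolyTime V := PT_of_comp hV
    exact PolyTime.comp hV' (by fun_prop)
  · apply PolyTime.computable
    exact PolyTime.const 1
  · intro x hx
    obtain ⟨u, hu, hc⟩ := h1 x hx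
    refine ⟨u, hu, fun _ r => if V (x, u, List.ofFn r) = true then 1 else 0, ?_⟩
    rw [Polynomial.eval_C]
    refine (show (1 + 1) * 2 ^ m.eval x.length ≤ _ from hc).trans (Nat.mul_le_mul_left 3 (count_mono ?_))
    intro r hr
    refine ⟨[], Nat.zero_le _, {r' | V (x, u, List.ofFn r') = true}, ⟨fun _ => 1, ?_, ?_⟩, hr, ?_⟩
    · intro j
      rw [MvPolynomial.totalDegree_one]
      exact Nat.zero_le _
    · intro r'
      have hM : (1 : Polynomial ℕ).eval x.length = 1 := Polynomial.eval_one
      have hs : ∑ j : Fin ((1 : Polynomial ℕ).eval x.length),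
          (if V (x, u, List.ofFn r') = true then (1 : ZMod 2) else 0) *
            MvPolynomial.eval (fun i => if r' i then (1 : ZMod 2) else 0)
              (1 : MvPolynomial (Fin (m.eval x.length)) (ZMod 2)) =
          (if V (x, u, List.ofFn r') = true then (1 : ZMod 2) else 0) := by
        rw [Finset.sum_const, Finset.card_univ, Fintype.card_fin, hM, one_smul, map_one, mul_one]
      rw [hs]
      by_cases hv : V (x, u, List.ofFn r') = true
      · simp [hv]
      · simp [hv]
    · intro r' hr'
      exact hr'
  · intro x hx u hu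
    rw [Polynomial.eval_C, one_mul]
    refine (Nat.mul_le_mul_left 3 (count_mono ?_)).trans (h2 x hx u hu)
    rintro r ⟨y, -, hy⟩
    exact hy

end Pool.Agent.Helper51.MG
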